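import Pool.Agent.R866.WM.Main

/-!
# Wilf's inequality for modular numerical semigroups

For all positive integers `a, b` the modular numerical semigroup
`S = S(a,b,1) = {x : a x mod b ≤ x}` satisfies `e(S) g(S) ≤ (e(S) - 1) (F(S) + 1)`.

`S a b` is the set `{x : (a * x) % b ≤ x}`; `IsMinGen T A` says that `A` generates the
monoid `T` and no proper subset of `A` does. In the statement `A` is the (unique, finite)
minimal generating set, so `A.ncard` is the embedding dimension; `(S a b)ᶜ.ncard` is the
genus; `F` is the greatest element of the complement of `S a b` in the integers, the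
Frobenius number.

Idea of the proof. Put `r(x) = a x mod b` and `P = {s < b : 0 < r(s) < s}`. The gaps of `S`
are exactly the numbers `b - s` with `s ∈ P`. Every `s ∈ P` can be written `s = w + t` with
`t ∈ S`, `w ∈ P` and `w` either a minimal generator or the sum of the only minimal generator
with residue `0` and the only minimal generator `q` with `r(q) = q`. There are at most
`e(S) - 1` such `w`, and `t ≤ F(S)` because `b - w` is a gap; so the genus is at most
`(e(S) - 1)` times the number of elements of `S` below `F(S)`, which is Wilf's inequality.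
-/

namespace Pool.Agent.Results.MP_811154_nt.ModularWilf

open Pool.Agent.R866.WM

theorem result (a b : ℕ) (_ha : 0 < a) (hb : 0 < b) :
    (0 ∈ S a b ∧ ∀ x ∈ S a b, ∀ y ∈ S a b, x + y ∈ S a b) ∧ (S a b)ᶜ.Finite ∧
    ∃ (A : Set ℕ) (F : ℤ), IsMinGen (S a b) A ∧ (∀ B, IsMinGen (S a b) B → B = A) ∧
      A.Finite ∧ IsGreatest {z : ℤ | ∀ x ∈ S a b, (x : ℤ) ≠ z} F ∧
      (A.ncard : ℤ) * ((S a b)ᶜ.ncard : ℤ) ≤ ((A.ncard : ℤ) - 1) * (F + 1) := by
  obtain ⟨A, F, h1, h2, h3, h4, h5, h6⟩ := main a b hb
  exact ⟨⟨(M a b).zero_mem, fun x hx y hy => (M a b).add_mem hx hy⟩, h4, A, F, h1, h2, h3,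
    h5, h6⟩

end Pool.Agent.Results.MP_811154_nt.ModularWilf
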